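import Pool.Agent.H74.OLP.Targets

/-!
# An odd cycle
-/

set_option autoImplicit false
open scoped Classical
open Finset Pool.Agent.H74.OLP

namespace Pool.Agent.H51.OLP

theorem not_dvd_mid {n a : ℤ} (h0 : 0 < a) (h1 : a < n) : ¬ n ∣ a := by
  intro h
  have := Int.le_of_dvd h0 h
  omega

theorem pf_ODC (h1 : T_PAR) (h2 : T_RPL) : T_ODC := by
  intro F T n c z hn hc hcz hz harc hnb
  by_cases hodd : Odd n
  · exact ⟨n, c, hc, hodd, fun D _ => rfl, fun i => Or.inl ⟨i, rfl⟩⟩
  have heven : Even n := Nat.not_odd_iff_even.1 hodd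
  obtain ⟨δ, ⟨L', y, hy, hy0, hyL, hL', hD, hran⟩, hδ⟩ := h1 F T z hz harc
  have hc0 : y 0 = c 0 := by
    rw [hy0, ← hcz 0 (by omega)]
    rfl
  have hcL : y L' = c ((20 : ℕ) : ℤ) := by
    rw [hyL, ← hcz 20 le_rfl]
  obtain ⟨c', hc', hsum, hr⟩ := h2 F T n c 20 L' y hc (by omega) (by omega) (by omega) hy hc0 hcL (by
    intro i hi hiL j hj hjn
    rcases hran i hiL.le with ⟨k, hk, hyk⟩ | ⟨k, hk3, hk17, hadj⟩
    · have hk0 : k ≠ 0 := by
        rintro rfl
        have := hy.inj i 0 hiL.le (Nat.zero_le _) (hyk.trans hy0.symm)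
        omega
      have hk20 : k ≠ 20 := by
        rintro rfl
        have := hy.inj i L' hiL.le le_rfl (hyk.trans hyL.symm)
        omega
      rw [hyk, ← hcz k hk]
      constructor
      · rw [hc.adj]
        rintro (h | h)
        · rw [← dvd_neg] at h
          exact not_dvd_mid (by omega) (by omega) h
        · exact not_dvd_mid (by omega) (by omega) h
      · rw [Ne, hc.eqv]
        intro h
        rw [← dvd_neg] at h
        exact not_dvd_mid (by omega) (by omega) h
    · have key : ¬ (T.Adj (y i) (c j) ∨ y i = c j) := by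
        intro h
        obtain ⟨j', hj', he⟩ := hnb k hk3 (by omega) (y i) hadj j h
        rw [← hcz j' hj', hc.eqv] at he
        exact not_dvd_mid (by omega) (by omega) he
      exact ⟨fun h => key (Or.inl h), fun h => key (Or.inr h)⟩)
  refine ⟨n - 20 + L', c', hc', ?_, ?_, ?_⟩
  · obtain ⟨a, ha⟩ := heven
    obtain ⟨b, hb⟩ := hδ
    rw [Nat.odd_iff]
    omega
  · intro D hTri
    have e1 : fs D (fun i : ℕ => c (i : ℤ)) 0 20 = fs D z 0 20 :=
      fs_congr D fun i _ hi => hcz i hi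
    have e2 := hsum D
    rw [e1, hD D hTri] at e2
    exact add_right_cancel e2
  · intro i
    rcases hr i with ⟨j, hj⟩ | ⟨j, hj, hj'⟩
    · exact Or.inl ⟨j, hj⟩
    · rcases hran j hj with ⟨k, hk, hyk⟩ | ⟨k, hk3, hk17, hadj⟩
      · refine Or.inl ⟨(k : ℤ), ?_⟩
        rw [hj', hyk, hcz k hk]
      · refine Or.inr ⟨k, hk3, by omega, ?_⟩
        rw [hj']
        exact hadj

end Pool.Agent.H51.OLP
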